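import Pool.Agent.EOP7.B

set_option autoImplicit false

namespace Pool.Agent.Results.MP_97f5de_co.SharpOrder

open SimpleGraph Pool.Agent.EOP7

/-- The edge-ordered graph `(G, g)` contains the edge-ordered graph `(F, f)` (edges ordered by
their labels). -/
def Contains {V W : Type} (F : SimpleGraph V) (f : Sym2 V → ℕ) (G : SimpleGraph W)
    (g : Sym2 W → ℕ) : Prop :=
  ∃ φ : V → W, Function.Injective φ ∧ (∀ u v, F.Adj u v → G.Adj (φ u) (φ v)) ∧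
    ∀ e₁ ∈ F.edgeSet, ∀ e₂ ∈ F.edgeSet, f e₁ < f e₂ → g (Sym2.map φ e₁) < g (Sym2.map φ e₂)

theorem lower (N : ℕ) : ∃ n : ℕ, N ≤ n ∧ 2 ≤ n ∧ ∃ (G : SimpleGraph (Fin n))
    (M : Sym2 (Fin n) → ℕ), Set.InjOn M G.edgeSet ∧ ¬ Has G M ∧
      n * Real.exp (Real.sqrt (Real.log n) / 10) < G.edgeSet.ncard := by
  obtain ⟨b, hbN, hb13⟩ : ∃ b : ℕ, N + 2 ≤ b ∧ 100 ≤ b := ⟨N + 102, by omega, by omega⟩
  obtain ⟨G, M, h1, h2, h3⟩ := transport _ _ (gl_inj b (2 ^ b)) (not_has b (2 ^ b))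
  have hc := host_card b (2 ^ b)
  rw [← h3] at hc
  have e : Fintype.card (Row b (2 ^ b) ⊕ Col b (2 ^ b)) = (2 ^ b) ^ b * (6 ^ b + 4 ^ b) := by
    have : (6 : ℕ) ^ b = 2 ^ b * 3 ^ b := mul_pow 2 3 b
    have : (4 : ℕ) ^ b = 2 ^ b * 2 ^ b := mul_pow 2 2 b
    simp [mul_pow, *]
    ring
  have e' : 2 ^ b * ((2 * 2 ^ b) ^ b * 2 ^ b) = (2 ^ b) ^ b * 8 ^ b := by
    have : (8 : ℕ) ^ b = 2 ^ b * 2 ^ b * 2 ^ b := by rw [← mul_pow, ← mul_pow]; rfl
    rw [this, mul_pow]; ring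
  rw [e'] at hc
  have p46 : 4 ^ b ≤ 6 ^ b := Nat.pow_le_pow_left (by norm_num) b
  have p68 : 6 ^ b ≤ 2 ^ (3 * b) := by rw [pow_mul]; exact Nat.pow_le_pow_left (by norm_num) b
  have lo : b ≤ Fintype.card (Row b (2 ^ b) ⊕ Col b (2 ^ b)) := by
    rw [e]
    have : b < 4 ^ b := Nat.lt_pow_self (by norm_num)
    have : 0 < (2 ^ b) ^ b := by positivity
    nlinarith
  have hi : Fintype.card (Row b (2 ^ b) ⊕ Col b (2 ^ b)) ≤ (2 ^ b) ^ b * (2 * 6 ^ b) := by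
    rw [e]; exact Nat.mul_le_mul_left _ (by omega)
  have hi2 : Fintype.card (Row b (2 ^ b) ⊕ Col b (2 ^ b)) ≤ 2 ^ (5 * b ^ 2) := by
    refine hi.trans ((Nat.mul_le_mul_left _ (Nat.mul_le_mul_left 2 p68)).trans ?_)
    rw [← pow_mul, ← pow_succ', ← pow_add]
    exact Nat.pow_le_pow_right (by norm_num) (by nlinarith)
  refine ⟨_, by omega, by omega, G, M, h1, h2, ?_⟩
  generalize Fintype.card (Row b (2 ^ b) ⊕ Col b (2 ^ b)) = n at *
  have n1 : (1 : ℝ) ≤ n := by exact_mod_cast (by omega : 1 ≤ n)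
  have b13 : (100 : ℝ) ≤ b := by exact_mod_cast hb13
  have l1 : Real.log n ≤ 5 * (b : ℝ) ^ 2 := by
    refine (Real.log_le_log (by positivity) (y := 2 ^ (5 * b ^ 2)) (by exact_mod_cast hi2)).trans ?_
    rw [Real.log_pow]
    push_cast
    have := Real.log_two_lt_d9
    exact mul_le_of_le_one_right (by positivity) (by linarith)
  have l2 : Real.sqrt (Real.log n) ≤ 9 / 4 * b := by
    rw [show (9 / 4 * (b : ℝ)) = Real.sqrt ((9 / 4 * b) ^ 2) by rw [Real.sqrt_sq (by positivity)]]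
    exact Real.sqrt_le_sqrt (by nlinarith)
  have hi' : (n : ℝ) ≤ (2 ^ b) ^ b * (2 * 6 ^ b) := by exact_mod_cast hi
  have hc' : (2 ^ b) ^ b * (8 : ℝ) ^ b ≤ G.edgeSet.ncard := by exact_mod_cast hc
  have l3 : 2 * Real.exp (Real.sqrt (Real.log n) / 10) < (4 / 3 : ℝ) ^ b := by
    have a1 : (1 / 4 : ℝ) < Real.log (4 / 3) := by
      rw [Real.lt_log_iff_exp_lt (by norm_num)]
      have h4 : Real.exp (1 / 4) ^ 4 < (4 / 3) ^ 4 := by
        rw [← Real.exp_nat_mul]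
        have := Real.exp_one_lt_d9
        norm_num
        linarith
      exact lt_of_pow_lt_pow_left₀ 4 (by norm_num) h4
    have a2 : (2 : ℝ) < Real.exp 1 := by have := Real.exp_one_gt_d9; linarith
    have a3 : (4 / 3 : ℝ) ^ b = Real.exp (b * Real.log (4 / 3)) := by
      rw [mul_comm, Real.exp_mul, Real.exp_log (by norm_num), Real.rpow_natCast]
    rw [a3]
    calc 2 * Real.exp (Real.sqrt (Real.log n) / 10)
        < Real.exp 1 * Real.exp (Real.sqrt (Real.log n) / 10) := by gcongr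
      _ = Real.exp (1 + Real.sqrt (Real.log n) / 10) := by rw [Real.exp_add]
      _ ≤ _ := by
          apply Real.exp_le_exp.2
          nlinarith
  have e8 : (8 : ℝ) ^ b = 6 ^ b * (4 / 3) ^ b := by rw [← mul_pow]; norm_num
  calc (n : ℝ) * Real.exp (Real.sqrt (Real.log n) / 10)
      ≤ ((2 ^ b) ^ b * (2 * 6 ^ b)) * Real.exp (Real.sqrt (Real.log n) / 10) := by gcongr
    _ = (2 ^ b) ^ b * (6 ^ b * (2 * Real.exp (Real.sqrt (Real.log n) / 10))) := by ring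
    _ < (2 ^ b) ^ b * (6 ^ b * (4 / 3) ^ b) := by gcongr
    _ = (2 ^ b) ^ b * 8 ^ b := by rw [e8]
    _ ≤ _ := hc'

/-- **An edge-ordered path with six edges, of order chromatic number 2, with
`ex_<(n, F) > n exp(√(log n) / 10)` for arbitrarily large `n`.** -/
theorem result :
    ∃ f : Sym2 (Fin 7) → ℕ,
      (pathGraph 7).IsAcyclic ∧ Set.InjOn f (pathGraph 7).edgeSet ∧
      (pathGraph 7).edgeSet.Nonempty ∧
      (∃ m : ℕ, ∃ H : SimpleGraph (Fin m), H.Colorable 2 ∧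
        ∀ h : Sym2 (Fin m) → ℕ, Set.InjOn h H.edgeSet → Contains (pathGraph 7) f H h) ∧
      ∀ N : ℕ, ∃ n : ℕ, N ≤ n ∧ ∃ (G : SimpleGraph (Fin n)) (g : Sym2 (Fin n) → ℕ),
        Set.InjOn g G.edgeSet ∧ ¬ Contains (pathGraph 7) f G g ∧
        n * Real.exp (Real.sqrt (Real.log n) / 10) < G.edgeSet.ncard := by
  refine ⟨lab, F_acyc, lab_inj, ⟨s(0, 1), (by decide : s(0, 1) ∈ F.edgeSet)⟩, bip, fun N => ?_⟩
  obtain ⟨n, hn, -, G, M, hM, q, lt⟩ := lower N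
  exact ⟨n, hn, G, M, hM, q, lt⟩

end Pool.Agent.Results.MP_97f5de_co.SharpOrder
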